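import Pool.Agent.P.MP_439f1f_co_X.Ex2

set_option autoImplicit false

namespace Pool.Agent.Results.MP_439f1f_co.ExactGirth

/-- For every `g ≥ 26` with `g ≡ 2 (mod 4)` there are arbitrarily large maximally non-hamiltonian
graphs of girth exactly `g`, 3-colourable and with at most `(2 + 1 / m) n` edges. -/
theorem result : ∀ g : ℕ, 26 ≤ g → g % 4 = 2 → ∀ m : ℕ, ∃ n : ℕ, m ≤ n ∧
    ∃ G : SimpleGraph (Fin n), ¬ G.IsHamiltonian ∧
      (∀ u v : Fin n, u ≠ v → ¬ G.Adj u v →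
        (G ⊔ SimpleGraph.fromEdgeSet {s(u, v)}).IsHamiltonian) ∧
      ¬ G.IsAcyclic ∧ G.girth = g ∧ G.Colorable 3 ∧ m * G.edgeSet.ncard ≤ (2 * m + 1) * n :=
  Pool.Agent.P.MP_439f1f_co.exact_girth

end Pool.Agent.Results.MP_439f1f_co.ExactGirth
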